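import Mathlib

set_option autoImplicit false

/-!
# A small subsemigroup of a free group which meets all automorphic orbits

`a = x_0`, `b = x_1`.  The subsemigroup generated by `a b²`, `a⁻¹ b⁻²` and the elements
`a^s c_s y d_{s'}` (`y ≠ a^{±1}` a letter, `s`, `s'` signs, `c_+ = b²`, `c_- = 1`, `d_+ = 1`,
`d_- = b⁻²`) contains an automorphic image of every nontrivial element.
-/

namespace Pool.Agent.Q322.FG

variable {k : ℕ}

/-- the free group of rank `k + 2` -/
abbrev Fr (k : ℕ) : Type := FreeGroup (Fin (k + 2))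

/-- the first generator -/
def a : Fr k := FreeGroup.of 0

/-- the second generator -/
def b : Fr k := FreeGroup.of 1

/-- the element given by a letter -/
def e (y : Fin (k + 2) × Bool) : Fr k := FreeGroup.mk [y]

theorem e_true (i : Fin (k + 2)) : e (i, true) = FreeGroup.of i := rfl

theorem e_false (i : Fin (k + 2)) : e (i, false) = (FreeGroup.of i)⁻¹ := by
  simp [e, FreeGroup.of, FreeGroup.inv_mk, FreeGroup.invRev]

/-- conjugating the letters by powers of `a` -/
def thH (N : ℤ) : Fr k →* Fr k :=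
  FreeGroup.lift (fun i => a ^ (N * (i.val : ℤ)) * FreeGroup.of i * a ^ (N * (i.val : ℤ)))

theorem thH_of (N : ℤ) (i : Fin (k + 2)) :
    thH N (FreeGroup.of i) = a ^ (N * (i.val : ℤ)) * FreeGroup.of i * a ^ (N * (i.val : ℤ)) := by
  simp [thH]

theorem thH_a (N : ℤ) : thH N (a : Fr k) = a := by
  have := thH_of (k := k) N 0
  simpa [a] using this

theorem thH_comp (N : ℤ) : (thH N : Fr k →* Fr k).comp (thH (-N)) = MonoidHom.id _ := by
  ext i
  simp only [MonoidHom.comp_apply, thH_of, map_mul, map_zpow, thH_a, MonoidHom.id_apply]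
  have : (-N * (i.val : ℤ)) = -(N * (i.val : ℤ)) := by ring
  rw [this]
  group

/-- the automorphism -/
def th (N : ℤ) : Fr k ≃* Fr k :=
  MonoidHom.toMulEquiv (thH N) (thH (-N))
    (by have := thH_comp (k := k) (-N); rwa [neg_neg] at this) (thH_comp N)

theorem th_apply (N : ℤ) (x : Fr k) : th N x = thH N x := rfl

/-- `a ↦ a b^t` -/
def siH (t : ℤ) : Fr k →* Fr k :=
  FreeGroup.lift (fun i => if i = 0 then a * b ^ t else FreeGroup.of i)

theorem siH_a (t : ℤ) : siH t (a : Fr k) = a * b ^ t := by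
  simp [siH, a]

theorem siH_of (t : ℤ) {i : Fin (k + 2)} (hi : i ≠ 0) : siH t (FreeGroup.of i) =
    FreeGroup.of i := by
  simp [siH, hi]

theorem siH_b (t : ℤ) : siH t (b : Fr k) = b := siH_of t (by simp)

theorem siH_comp (t : ℤ) : (siH t : Fr k →* Fr k).comp (siH (-t)) = MonoidHom.id _ := by
  ext i
  simp only [MonoidHom.comp_apply, MonoidHom.id_apply]
  by_cases hi : i = 0
  · subst hi
    have : (FreeGroup.of 0 : Fr k) = a := rfl
    rw [this, siH_a, map_mul, map_zpow, siH_a, siH_b]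
    group
  · rw [siH_of _ hi, siH_of _ hi]

/-- the automorphism `a ↦ a b^t` -/
def si (t : ℤ) : Fr k ≃* Fr k :=
  MonoidHom.toMulEquiv (siH t) (siH (-t))
    (by have := siH_comp (k := k) (-t); rwa [neg_neg] at this) (siH_comp t)

theorem si_apply (t : ℤ) (x : Fr k) : si t x = siH t x := rfl

/-- the exponent -/
def el (N : ℤ) (y : Fin (k + 2) × Bool) : ℤ := (if y.2 then 1 else -1) * (N * (y.1.val : ℤ))

theorem thH_e (N : ℤ) (y : Fin (k + 2) × Bool) :
    thH N (e y) = a ^ (el N y) * e y * a ^ (el N y) := by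
  obtain ⟨i, s⟩ := y
  cases s
  · rw [e_false, map_inv, thH_of]
    simp only [el]
    have : ((if (false : Bool) = true then (1 : ℤ) else -1) * (N * (i.val : ℤ))) =
      -(N * (i.val : ℤ)) := by simp
    rw [this]
    group
  · rw [e_true, thH_of]
    simp [el]

theorem siH_e (t : ℤ) {y : Fin (k + 2) × Bool} (hy : y.1 ≠ 0) : siH t (e y) = e y := by
  obtain ⟨i, s⟩ := y
  cases s
  · rw [e_false, map_inv, siH_of t hy]
  · rw [e_true, siH_of t hy]

/-- `a^{±1}` -/
def as (s : Bool) : Fr k := if s then a else a⁻¹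
/-- the left part -/
def c (s : Bool) : Fr k := if s then b ^ (2 : ℕ) else 1
/-- the right part -/
def d (s : Bool) : Fr k := if s then 1 else (b ^ (2 : ℕ))⁻¹

/-- the generators -/
def h (s : Bool) : Fr k := as s * c s * d s
/-- the generators -/
def g (s : Bool) (y : Fin (k + 2) × Bool) (s' : Bool) : Fr k := as s * c s * e y * d s'

/-- the generating set -/
def X0 (k : ℕ) : Set (Fr k) :=
  Set.range h ∪ (fun p : Bool × (Fin (k + 2) × Bool) × Bool => g p.1 p.2.1 p.2.2) ''
    {p | p.2.1.1 ≠ 0}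

theorem X0_finite : (X0 k).Finite :=
  (Set.finite_range _).union ((Set.toFinite _).image _)

/-- the semigroup -/
def M (k : ℕ) : Subsemigroup (Fr k) := Subsemigroup.closure (X0 k)

theorem h_mem (s : Bool) : (h s : Fr k) ∈ M k :=
  Subsemigroup.subset_closure (Or.inl ⟨s, rfl⟩)

theorem g_mem (s : Bool) (y : Fin (k + 2) × Bool) (s' : Bool) (hy : y.1 ≠ 0) :
    (g s y s' : Fr k) ∈ M k :=
  Subsemigroup.subset_closure (Or.inr ⟨(s, y, s'), hy, rfl⟩)

theorem h_pow_mem {s : Bool} (n : ℕ) {x : Fr k} (hx : x ∈ M k) : h s ^ n * x ∈ M k := by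
  induction n with
  | zero => simpa using hx
  | succ n ih =>
    rw [pow_succ', mul_assoc]
    exact (M k).mul_mem (h_mem s) ih

theorem h_pow_succ_mem {s : Bool} (n : ℕ) : (h s : Fr k) ^ (n + 1) ∈ M k := by
  rw [pow_succ]
  exact h_pow_mem n (h_mem s)

/-- the sign of an integer -/
def sg (m : ℤ) : Bool := decide (0 < m)

theorem siH_a_pow {m : ℤ} (hm : m ≠ 0) : ∃ n : ℕ,
    siH 2 (a : Fr k) ^ m = d (sg m) * h (sg m) ^ n * (as (sg m) * c (sg m)) := by
  rw [siH_a]
  rcases lt_or_gt_of_ne hm with hlt | hgt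
  · obtain ⟨n, hn⟩ : ∃ n : ℕ, m = -((n : ℤ) + 1) := ⟨(-m - 1).toNat, by omega⟩
    refine ⟨n, ?_⟩
    have hs : sg m = false := by simp [sg]; omega
    rw [hs, hn]
    have h1 : (h false : Fr k) = a⁻¹ * (b ^ (2 : ℕ))⁻¹ := by simp [h, as, c, d]
    have h2 : (as false * c false : Fr k) = a⁻¹ := by simp [as, c]
    have h3 : (d false : Fr k) = (b ^ (2 : ℕ))⁻¹ := by simp [d]
    rw [h1, h2, h3, zpow_neg]
    have h4 : ((a : Fr k) * b ^ (2 : ℤ)) ^ ((n : ℤ) + 1) = ((a : Fr k) * b ^ (2 : ℕ)) ^ (n + 1) := by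
      have : ((n : ℤ) + 1) = ((n + 1 : ℕ) : ℤ) := by push_cast; ring
      rw [this, zpow_natCast]
      rfl
    rw [h4]
    clear hs hn hlt hm h4 h1 h2 h3
    induction n with
    | zero => simp
    | succ n ih =>
      rw [pow_succ', mul_inv_rev, ih, mul_inv_rev]
      rw [show (a⁻¹ * (b ^ 2)⁻¹ : Fr k) ^ (n + 1) = (a⁻¹ * (b ^ 2)⁻¹) ^ n * (a⁻¹ * (b ^ 2)⁻¹) from
        pow_succ _ _]
      simp only [mul_assoc]
  · obtain ⟨n, hn⟩ : ∃ n : ℕ, m = (n : ℤ) + 1 := ⟨(m - 1).toNat, by omega⟩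
    refine ⟨n, ?_⟩
    have hs : sg m = true := by simp [sg]; omega
    rw [hs, hn]
    have h1 : (h true : Fr k) = a * b ^ (2 : ℕ) := by simp [h, as, c, d]
    have h2 : (as true * c true : Fr k) = a * b ^ (2 : ℕ) := by simp [as, c]
    have h3 : (d true : Fr k) = 1 := by simp [d]
    rw [h1, h2, h3]
    have : ((n : ℤ) + 1) = ((n + 1 : ℕ) : ℤ) := by push_cast; ring
    rw [this, zpow_natCast, one_mul, pow_succ]
    rfl

/-- the composition -/
def Ph (N : ℤ) : Fr k ≃* Fr k := (th N).trans (si 2)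

theorem Ph_apply (N : ℤ) (x : Fr k) : Ph N x = siH 2 (thH N x) := rfl

/-- one syllable -/
def Xs (p : (Fin (k + 2) × Bool) × ℤ) : Fr k := e p.1 * a ^ p.2

theorem Ph_Xs (N : ℤ) {p : (Fin (k + 2) × Bool) × ℤ} (hp : p.1.1 ≠ 0) :
    Ph N (Xs p) = siH 2 a ^ (el N p.1) * e p.1 * siH 2 a ^ (el N p.1 + p.2) := by
  rw [Ph_apply, Xs, map_mul, map_zpow, thH_a, thH_e]
  rw [map_mul, map_mul, map_mul, map_zpow, map_zpow, siH_e _ hp]
  rw [zpow_add]
  simp only [mul_assoc]

theorem el_ne {N : ℤ} (hN : 0 < N) {y y' : Fin (k + 2) × Bool} {m : ℤ} (hm : |m| < N)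
    (hy : y.1 ≠ 0) (hy' : y'.1 ≠ 0)
    (hr : ¬ (m = 0 ∧ y'.1 = y.1 ∧ y'.2 = !y.2)) : el N y + m + el N y' ≠ 0 := by
  obtain ⟨i, s⟩ := y
  obtain ⟨j, s'⟩ := y'
  simp only at hy hy' hr
  have hi : 1 ≤ (i.val : ℤ) := by
    have : i.val ≠ 0 := fun h => hy (Fin.ext (by simpa using h))
    omega
  have hj : 1 ≤ (j.val : ℤ) := by
    have : j.val ≠ 0 := fun h => hy' (Fin.ext (by simpa using h))
    omega
  have hm' := abs_lt.1 hm
  intro h0
  -- N * (± i ± j) = -m
  obtain ⟨z, hz⟩ : ∃ z : ℤ, z = (if s then 1 else -1) * (i.val : ℤ) +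
    (if s' then 1 else -1) * (j.val : ℤ) := ⟨_, rfl⟩
  have h1 : N * z = -m := by
    simp only [el] at h0
    rw [hz]
    linear_combination h0
  have h2 : z = 0 := by
    by_contra hz0
    rcases lt_or_gt_of_ne hz0 with h | h
    · nlinarith
    · nlinarith
  have h3 : m = 0 := by rw [h2] at h1; simp at h1; omega
  apply hr
  refine ⟨h3, ?_, ?_⟩
  · apply Fin.ext
    rw [h2] at hz
    cases s <;> cases s' <;> simp at hz <;> omega
  · rw [h2] at hz
    cases s <;> cases s' <;> simp at hz ⊢ <;> omega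

/-- telescoping -/
theorem telescope (f : ℕ → (Fin (k + 2) × Bool) × ℤ) (hf : ∀ i, (f i).1.1 ≠ 0) (N : ℤ)
    (hN : 0 < N) (hm : ∀ i, |(f i).2| < N)
    (hr : ∀ i, ¬ ((f i).2 = 0 ∧ (f (i + 1)).1.1 = (f i).1.1 ∧ (f (i + 1)).1.2 = !(f i).1.2)) :
    ∃ G : ℕ → Fr k, (∀ i j, f i = f j → f (i + 1) = f (j + 1) → G i = G j) ∧
      ∀ i, ∃ x ∈ M k, Ph N (Xs (f i)) * G (i + 1) = G i * x := by
  let Mi : ℕ → ℤ := fun i => el N (f i).1 + (f i).2 + el N (f (i + 1)).1
  have hMi : ∀ i, Mi i ≠ 0 := fun i => el_ne hN (hm i) (hf i) (hf (i + 1)) (hr i)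
  refine ⟨fun i => siH 2 a ^ (el N (f i).1) * e (f i).1 * d (sg (Mi i)), ?_, ?_⟩
  · intro i j h1 h2
    simp only [Mi, h1, h2]
  · intro i
    obtain ⟨n, hn⟩ := siH_a_pow (k := k) (hMi i)
    refine ⟨h (sg (Mi i)) ^ n * g (sg (Mi i)) (f (i + 1)).1 (sg (Mi (i + 1))),
      h_pow_mem n (g_mem _ _ _ (hf (i + 1))), ?_⟩
    simp only
    rw [Ph_Xs N (hf i)]
    have h1 : siH 2 (a : Fr k) ^ (el N (f i).1 + (f i).2) *
        siH 2 a ^ (el N (f (i + 1)).1) = siH 2 a ^ (Mi i) := by
      rw [← zpow_add]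
    calc siH 2 a ^ (el N (f i).1) * e (f i).1 * siH 2 a ^ (el N (f i).1 + (f i).2) *
          (siH 2 a ^ (el N (f (i + 1)).1) * e (f (i + 1)).1 * d (sg (Mi (i + 1))))
        = siH 2 a ^ (el N (f i).1) * e (f i).1 * (siH 2 a ^ (el N (f i).1 + (f i).2) *
          siH 2 a ^ (el N (f (i + 1)).1)) * e (f (i + 1)).1 * d (sg (Mi (i + 1))) := by
          simp only [mul_assoc]
      _ = siH 2 a ^ (el N (f i).1) * e (f i).1 * (d (sg (Mi i)) * h (sg (Mi i)) ^ n *
          (as (sg (Mi i)) * c (sg (Mi i)))) * e (f (i + 1)).1 * d (sg (Mi (i + 1))) := by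
          rw [h1, hn]
      _ = _ := by
          rw [g]
          simp only [mul_assoc]

theorem tele_prod (Φ : Fr k →* Fr k) (x G : ℕ → Fr k)
    (hx : ∀ i, ∃ y ∈ M k, Φ (x i) * G (i + 1) = G i * y) (n : ℕ) :
    ∃ y ∈ M k, Φ (((List.range (n + 1)).map x).prod) * G (n + 1) = G 0 * y := by
  induction n with
  | zero =>
    obtain ⟨y, h1, h2⟩ := hx 0
    exact ⟨y, h1, by simpa using h2⟩
  | succ n ih =>
    obtain ⟨y, h1, h2⟩ := ih
    obtain ⟨y', h1', h2'⟩ := hx (n + 1)
    refine ⟨y * y', (M k).mul_mem h1 h1', ?_⟩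
    rw [List.range_succ, List.map_append, List.prod_append, map_mul]
    simp only [List.map_cons, List.map_nil, List.prod_cons, List.prod_nil, mul_one]
    rw [mul_assoc, h2', ← mul_assoc, h2, mul_assoc]

/-- an element has an automorphic image in the semigroup -/
def Good (w : Fr k) : Prop := ∃ φ : Fr k ≃* Fr k, ∃ m ∈ M k, φ m = w

theorem Good.of_aut {w : Fr k} (φ : Fr k ≃* Fr k) (h : Good (φ w)) : Good w := by
  obtain ⟨ψ, m, hm, h1⟩ := h
  refine ⟨ψ.trans φ.symm, m, hm, ?_⟩
  rw [MulEquiv.trans_apply, h1, MulEquiv.symm_apply_apply]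

theorem Good.of_conj {w : Fr k} (x : Fr k) (h : Good (x * w * x⁻¹)) : Good w :=
  Good.of_aut (MulAut.conj x) (by simpa using h)

theorem Good.of_mem {w : Fr k} (h : w ∈ M k) : Good w := ⟨MulEquiv.refl _, w, h, rfl⟩

theorem good_pow_a {m : ℤ} (hm : m ≠ 0) : Good ((a : Fr k) ^ m) := by
  apply Good.of_aut (si 2)
  rw [si_apply, map_zpow]
  obtain ⟨n, hn⟩ := siH_a_pow (k := k) hm
  rw [hn]
  apply Good.of_conj (d (sg m))⁻¹
  have : (d (sg m))⁻¹ * (d (sg m) * h (sg m) ^ n * (as (sg m) * c (sg m))) * (d (sg m))⁻¹⁻¹ =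
      (h (sg m) ^ (n + 1) : Fr k) := by
    rw [pow_succ, inv_inv]
    conv_rhs => rw [h]
    rw [← h]
    simp only [h, mul_assoc, inv_mul_cancel_left]
  rw [this]
  exact Good.of_mem (h_pow_succ_mem n)

/-- the product of a list of syllables -/
def Pr (l : List ((Fin (k + 2) × Bool) × ℤ)) : Fr k := (l.map Xs).prod

theorem Pr_append (l l' : List ((Fin (k + 2) × Bool) × ℤ)) : Pr (l ++ l') = Pr l * Pr l' := by
  simp [Pr]

theorem Pr_cons (p : (Fin (k + 2) × Bool) × ℤ) (l : List ((Fin (k + 2) × Bool) × ℤ)) :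
    Pr (p :: l) = e p.1 * a ^ p.2 * Pr l := by
  simp [Pr, Xs]

/-- lists without the letters `a^{±1}` -/
def Ok (l : List ((Fin (k + 2) × Bool) × ℤ)) : Prop := ∀ p ∈ l, p.1.1 ≠ 0

theorem exists_rep (w : Fr k) : ∃ (n : ℤ) (l : List ((Fin (k + 2) × Bool) × ℤ)),
    Ok l ∧ w = a ^ n * Pr l := by
  obtain ⟨L, rfl⟩ : ∃ L, w = FreeGroup.mk L := ⟨w.toWord, FreeGroup.mk_toWord.symm⟩
  induction L with
  | nil => exact ⟨0, [], by simp [Ok], by simp [Pr, FreeGroup.one_eq_mk]⟩
  | cons x L ih =>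
    obtain ⟨n, l, h1, h2⟩ := ih
    have h3 : (FreeGroup.mk (x :: L) : Fr k) = e x * FreeGroup.mk L := by
      rw [e, FreeGroup.mul_mk]; rfl
    rw [h3, h2]
    by_cases hx : x.1 = 0
    · obtain ⟨i, s⟩ := x
      simp only at hx
      subst hx
      cases s
      · refine ⟨-1 + n, l, h1, ?_⟩
        rw [e_false, zpow_add, zpow_neg_one, ← mul_assoc]
        rfl
      · refine ⟨1 + n, l, h1, ?_⟩
        rw [e_true, zpow_add, zpow_one, ← mul_assoc]
        rfl
    · refine ⟨0, (x, n) :: l, ?_, ?_⟩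
      · intro p hp
        rcases List.mem_cons.1 hp with rfl | hp
        · exact hx
        · exact h1 p hp
      · rw [Pr_cons, zpow_zero, one_mul]
        simp only [mul_assoc]

theorem e_mul_inv {y y' : Fin (k + 2) × Bool} (h1 : y'.1 = y.1) (h2 : y'.2 = !y.2) :
    (e y * e y' : Fr k) = 1 := by
  obtain ⟨i1, s1⟩ := y
  obtain ⟨i2, s2⟩ := y'
  simp only at h1 h2
  subst h1
  subst h2
  cases s1
  · rw [e_false, Bool.not_false, e_true]; group
  · rw [e_true, Bool.not_true, e_false]; group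

theorem good_of_ne_one (w : Fr k) (hw : w ≠ 1) : Good w := by
  classical
  -- minimal number of syllables in the conjugacy class
  have hex : ∃ K : ℕ, ∃ (x : Fr k) (n : ℤ) (l : List ((Fin (k + 2) × Bool) × ℤ)),
      Ok l ∧ l.length = K ∧ x * w * x⁻¹ = a ^ n * Pr l := by
    obtain ⟨n, l, h1, h2⟩ := exists_rep w
    exact ⟨_, 1, n, l, h1, rfl, by simpa using h2⟩
  obtain ⟨x, n, l, hl, hK, hx⟩ := Nat.find_spec hex
  have hmin := fun K (hK : K < Nat.find hex) => Nat.find_min hex hK
  set K := Nat.find hex with hKdef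
  rcases Nat.eq_zero_or_pos K with h0 | hpos
  · -- power of `a`
    have hl0 : l = [] := List.length_eq_zero_iff.1 (hK.trans h0)
    apply Good.of_conj x
    rw [hx, hl0]
    have : (Pr [] : Fr k) = 1 := rfl
    rw [this, mul_one]
    apply good_pow_a
    rintro rfl
    apply hw
    rw [hl0, this, zpow_zero, mul_one] at hx
    have : w = x⁻¹ * (x * w * x⁻¹) * x := by group
    rw [this, hx]
    group
  · -- move the power of `a` to the end
    obtain ⟨l', p, rfl⟩ : ∃ l' p, l = l' ++ [p] := by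
      rcases List.eq_nil_or_concat l with h | ⟨l', p, h⟩
      · rw [h] at hK; simp at hK; omega
      · exact ⟨l', p, by simpa using h⟩
    set l₂ := l' ++ [(p.1, p.2 + n)] with hl₂
    have hOk₂ : Ok l₂ := by
      intro q hq
      rcases List.mem_append.1 hq with hq | hq
      · exact hl q (by simp [hq])
      · simp only [List.mem_singleton] at hq
        rw [hq]
        exact hl p (by simp)
    have hlen₂ : l₂.length = K := by
      rw [← hK, hl₂]; simp
    have hx₂ : (a ^ (-n) * x) * w * (a ^ (-n) * x)⁻¹ = Pr l₂ := by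
      have h1 : Pr l₂ = Pr l' * (e p.1 * a ^ (p.2 + n)) := by
        rw [hl₂, Pr_append, Pr_cons]
        simp [Pr]
      have h2 : Pr (l' ++ [p]) = Pr l' * (e p.1 * a ^ p.2) := by
        rw [Pr_append, Pr_cons]
        simp [Pr]
      rw [h1]
      rw [h2] at hx
      calc (a ^ (-n) * x) * w * (a ^ (-n) * x)⁻¹ = a ^ (-n) * (x * w * x⁻¹) * a ^ n := by group
        _ = _ := by
          rw [hx]
          rw [zpow_add]
          simp only [← mul_assoc]
          simp
    set x₂ := a ^ (-n) * x with hx₂def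
    -- the periodic sequence
    have hne : ∀ i, i % K < l₂.length := fun i => by rw [hlen₂]; exact Nat.mod_lt _ hpos
    let f : ℕ → (Fin (k + 2) × Bool) × ℤ := fun i => l₂[i % K]'(hne i)
    have hf : ∀ i, (f i).1.1 ≠ 0 := fun i => hOk₂ _ (List.getElem_mem _)
    have hfper : ∀ i, f (i + K) = f i := by
      intro i
      simp only [f, Nat.add_mod_right]
    have hlist : l₂ = (List.range K).map f := by
      apply List.ext_getElem
      · simp [hlen₂]
      · intro i h1 h2
        simp only [List.getElem_map, List.getElem_range, f]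
        have : i % K = i := Nat.mod_eq_of_lt (by rwa [hlen₂] at h1)
        simp only [this]
    -- reducedness
    have hr : ∀ i, ¬ ((f i).2 = 0 ∧ (f (i + 1)).1.1 = (f i).1.1 ∧
        (f (i + 1)).1.2 = !(f i).1.2) := by
      rintro i ⟨h1, h2, h3⟩
      -- K ≥ 2
      have hK2 : 2 ≤ K := by
        by_contra hcon
        have hK1 : K = 1 := by omega
        have : f (i + 1) = f i := by simp only [f, hK1, Nat.mod_one]
        rw [this] at h3
        cases hh : (f i).1.2 <;> simp [hh] at h3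
      -- rotate
      have hrot : ∃ rest : List ((Fin (k + 2) × Bool) × ℤ), Ok rest ∧ rest.length = K - 2 ∧
          ∃ z : Fr k, z * Pr l₂ * z⁻¹ = Xs (f i) * Xs (f (i + 1)) * Pr rest := by
        have hsplit : l₂.rotate (i % K) = f i :: f (i + 1) :: (l₂.rotate (i % K)).drop 2 := by
          have hl : (l₂.rotate (i % K)).length = K := by rw [List.length_rotate, hlen₂]
          apply List.ext_getElem
          · simp only [List.length_cons, List.length_drop, hl]; omega
          · intro j h1 h2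
            rcases j with _ | _ | j
            · simp only [List.getElem_rotate, List.getElem_cons_zero, f, Nat.zero_add, hlen₂,
                Nat.mod_mod]
            · simp only [List.getElem_rotate, List.getElem_cons_succ, List.getElem_cons_zero, f,
                hlen₂, Nat.zero_add]
              have : (1 + i % K) % K = (i + 1) % K := by
                rw [Nat.add_mod_mod, Nat.add_comm]
              simp only [this]
            · simp only [List.getElem_cons_succ, List.getElem_drop]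
              congr 1
              omega
        refine ⟨(l₂.rotate (i % K)).drop 2, ?_, ?_, ?_⟩
        · intro q hq
          exact hOk₂ q (List.mem_rotate.1 (List.mem_of_mem_drop hq))
        · rw [List.length_drop, List.length_rotate, hlen₂]
        · refine ⟨(Pr (l₂.take (i % K)))⁻¹, ?_⟩
          have h4 : l₂.rotate (i % K) = l₂.drop (i % K) ++ l₂.take (i % K) :=
            List.rotate_eq_drop_append_take (by rw [hlen₂]; exact (Nat.mod_lt _ hpos).le)
          have h5 : Pr (l₂.rotate (i % K)) = Xs (f i) * Xs (f (i + 1)) *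
              Pr ((l₂.rotate (i % K)).drop 2) := by
            conv_lhs => rw [hsplit]
            simp only [Pr, List.map_cons, List.prod_cons, mul_assoc]
          have h6 : Pr l₂ = Pr (l₂.take (i % K)) * Pr (l₂.drop (i % K)) := by
            rw [← Pr_append, List.take_append_drop]
          rw [← h5, h4, Pr_append (l₂.drop (i % K)) (l₂.take (i % K)), h6]
          group
      obtain ⟨rest, hr1, hr2, z, hz⟩ := hrot
      have hcan : Xs (f i) * Xs (f (i + 1)) = (a ^ ((f (i + 1)).2) : Fr k) := by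
        have h4 : (e (f i).1 * e (f (i + 1)).1 : Fr k) = 1 := e_mul_inv h2 h3
        rw [Xs, Xs, h1, zpow_zero, mul_one, ← mul_assoc, h4, one_mul]
      refine hmin (K - 2) (by omega) ⟨z * x₂, (f (i + 1)).2, rest, hr1, hr2, ?_⟩
      rw [← hcan, ← hz, ← hx₂]
      group
    -- choose N
    obtain ⟨N, hN0, hN⟩ : ∃ N : ℤ, 0 < N ∧ ∀ i, |(f i).2| < N := by
      refine ⟨1 + (l₂.map (fun q => |q.2|)).sum, ?_, ?_⟩
      · have : 0 ≤ (l₂.map (fun q => |q.2|)).sum := List.sum_nonneg (by
          intro z hz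
          obtain ⟨q, _, rfl⟩ := List.mem_map.1 hz
          exact abs_nonneg _)
        omega
      · intro i
        have : |(f i).2| ≤ (l₂.map (fun q => |q.2|)).sum := by
          apply List.single_le_sum
          · intro z hz
            obtain ⟨q, _, rfl⟩ := List.mem_map.1 hz
            exact abs_nonneg _
          · exact List.mem_map.2 ⟨f i, List.getElem_mem _, rfl⟩
        omega
    obtain ⟨G, hG1, hG2⟩ := telescope f hf N hN0 hN hr
    obtain ⟨n', hn'⟩ : ∃ n', K = n' + 1 := ⟨K - 1, by omega⟩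
    obtain ⟨y, hy1, hy2⟩ := tele_prod (Ph N).toMonoidHom (fun i => Xs (f i)) G hG2 n'
    have hGK : G (n' + 1) = G 0 := by
      apply hG1
      · have := hfper 0
        rw [hn', Nat.zero_add] at this
        exact this
      · have := hfper 1
        rw [hn', Nat.add_comm 1] at this
        exact this
    have hPr : ((List.range (n' + 1)).map (fun i => Xs (f i))).prod = Pr l₂ := by
      rw [Pr, hlist, List.map_map, ← hn']
      rfl
    rw [hPr, hGK] at hy2
    apply Good.of_conj x₂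
    rw [hx₂]
    apply Good.of_aut (Ph N)
    apply Good.of_conj (G 0)⁻¹
    have : (G 0)⁻¹ * (Ph N) (Pr l₂) * (G 0)⁻¹⁻¹ = y := by
      have h5 : (Ph N) (Pr l₂) * G 0 = G 0 * y := hy2
      rw [inv_inv, mul_assoc, h5]
      group
    rw [this]
    exact Good.of_mem hy1

end Pool.Agent.Q322.FG
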