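import Pool.Agent.Q322.FG.Alg

set_option autoImplicit false

/-!
# Counting reduced words, and the elements of the semigroup `M`
-/

namespace Pool.Agent.Q322.FG

open Finset Filter Topology

variable {k : ℕ}

section Gen

variable {β : Type} [Fintype β] [DecidableEq β]

/-- chains of length `n` which can follow `x` -/
def Fc (R : β → β → Prop) [DecidableRel R] : ℕ → β → Finset (List β)
  | 0, _ => {[]}
  | n + 1, x => (univ.filter (fun y => R x y)).biUnion (fun y => (Fc R n y).image (List.cons y))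

variable (R : β → β → Prop) [DecidableRel R]

theorem mem_Fc (n : ℕ) (x : β) (L : List β) :
    L ∈ Fc R n x ↔ L.length = n ∧ (x :: L).IsChain R := by
  induction n generalizing x L with
  | zero =>
    simp only [Fc, mem_singleton]
    constructor
    · rintro rfl; simp
    · rintro ⟨h, -⟩; exact List.length_eq_zero_iff.1 h
  | succ n ih =>
    simp only [Fc, mem_biUnion, mem_filter, mem_univ, true_and, mem_image]
    constructor
    · rintro ⟨y, hy, L', hL', rfl⟩
      obtain ⟨h1, h2⟩ := (ih y L').1 hL'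
      refine ⟨by simp [h1], ?_⟩
      rw [List.isChain_cons_cons]
      exact ⟨hy, h2⟩
    · rintro ⟨h1, h2⟩
      cases L with
      | nil => simp at h1
      | cons y L' =>
        rw [List.isChain_cons_cons] at h2
        exact ⟨y, h2.1, L', (ih y L').2 ⟨by simpa using h1, h2.2⟩, rfl⟩

theorem card_Fc_succ (n : ℕ) (x : β) :
    (Fc R (n + 1) x).card = ∑ y ∈ univ.filter (fun y => R x y), (Fc R n y).card := by
  rw [Fc, card_biUnion]
  · refine sum_congr rfl (fun y _ => ?_)
    exact card_image_of_injective _ (List.cons_injective)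
  · intro y _ z _ hyz
    rw [Function.onFun, disjoint_left]
    intro L hL hL'
    obtain ⟨L1, _, rfl⟩ := mem_image.1 hL
    obtain ⟨L2, _, h⟩ := mem_image.1 hL'
    exact hyz (List.cons.inj h).1.symm

theorem card_Fc_ge (q : ℕ) (hq : ∀ x, q ≤ (univ.filter (fun y => R x y)).card) (n : ℕ) (x : β) :
    q ^ n ≤ (Fc R n x).card := by
  induction n generalizing x with
  | zero => simp [Fc]
  | succ n ih =>
    rw [card_Fc_succ]
    calc q ^ (n + 1) = q * q ^ n := pow_succ' _ _
      _ ≤ (univ.filter (fun y => R x y)).card * q ^ n := Nat.mul_le_mul_right _ (hq x)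
      _ = ∑ y ∈ univ.filter (fun y => R x y), q ^ n := by rw [sum_const, smul_eq_mul]
      _ ≤ _ := sum_le_sum (fun y _ => ih y)

theorem card_Fc_le (v : β → ℝ) (lam : ℝ) (hlam : 0 ≤ lam) (hv : ∀ x, 1 ≤ 2 * v x)
    (hR : ∀ x, ∑ y ∈ univ.filter (fun y => R x y), v y ≤ lam * v x) (n : ℕ) (x : β) :
    ((Fc R n x).card : ℝ) ≤ 2 * lam ^ n * v x := by
  induction n generalizing x with
  | zero => simpa [Fc] using hv x
  | succ n ih =>
    rw [card_Fc_succ]
    push_cast
    calc ∑ y ∈ univ.filter (fun y => R x y), ((Fc R n y).card : ℝ)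
        ≤ ∑ y ∈ univ.filter (fun y => R x y), 2 * lam ^ n * v y := sum_le_sum (fun y _ => ih y)
      _ = 2 * lam ^ n * ∑ y ∈ univ.filter (fun y => R x y), v y := by rw [mul_sum]
      _ ≤ 2 * lam ^ n * (lam * v x) := by
          apply mul_le_mul_of_nonneg_left (hR x)
          positivity
      _ = 2 * lam ^ (n + 1) * v x := by rw [pow_succ]; ring

end Gen

/-- reduced words -/
def Rd (x y : Fin (k + 2) × Bool) : Prop := x.1 = y.1 → x.2 = y.2

instance : DecidableRel (Rd (k := k)) := fun x y => by unfold Rd; infer_instance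

/-- reduced words without `a a` and `a⁻¹ a⁻¹` -/
def Pl (x y : Fin (k + 2) × Bool) : Prop := (x.1 = y.1 → x.2 = y.2) ∧ ¬ (x.1 = 0 ∧ y.1 = 0)

instance : DecidableRel (Pl (k := k)) := fun x y => by unfold Pl; infer_instance

theorem card_Rd (x : Fin (k + 2) × Bool) :
    2 * k + 3 ≤ (univ.filter (fun y => Rd x y)).card := by
  have h1 : univ.erase (x.1, !x.2) ⊆ univ.filter (fun y => Rd x y) := by
    intro y hy
    rw [mem_filter]
    refine ⟨mem_univ _, fun h => ?_⟩
    by_contra h2
    apply (mem_erase.1 hy).1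
    obtain ⟨y1, y2⟩ := y
    simp only at h h2
    rw [h]
    congr 1
    revert h2
    cases x.2 <;> cases y2 <;> simp
  have h2 := card_le_card h1
  rw [card_erase_of_mem (mem_univ _), card_univ, Fintype.card_prod, Fintype.card_fin,
    Fintype.card_bool] at h2
  omega

/-- the weights -/
noncomputable def vw (k : ℕ) (x : Fin (k + 2) × Bool) : ℝ :=
  if x.1 = 0 then 1 - 1 / (2 * (2 * k + 3)) else 1

theorem sum_vw : ∑ x : Fin (k + 2) × Bool, vw k x = 2 * k + 4 - 1 / (2 * k + 3 : ℝ) := by
  rw [Fintype.sum_prod_type]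
  simp only [vw, Fintype.sum_bool]
  rw [Fin.sum_univ_succ]
  simp only [if_true, Fin.succ_ne_zero, if_false, sum_const, card_univ, Fintype.card_fin,
    nsmul_eq_mul]
  push_cast
  have : (2 * (k : ℝ) + 3) ≠ 0 := by positivity
  field_simp
  ring

theorem vw_pos (x : Fin (k + 2) × Bool) : 1 ≤ 2 * vw k x := by
  have hk : (3 : ℝ) ≤ 2 * (k : ℝ) + 3 := by
    have : (0 : ℝ) ≤ k := Nat.cast_nonneg k
    linarith
  have h1 : 1 / (2 * (2 * (k : ℝ) + 3)) ≤ 1 / 6 := by
    apply one_div_le_one_div_of_le <;> linarith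
  unfold vw
  split_ifs
  · linarith
  · norm_num

theorem sum_Pl (x : Fin (k + 2) × Bool) :
    ∑ y ∈ univ.filter (fun y => Pl x y), vw k y ≤
      ((2 * k + 3 : ℝ) - 1 / (2 * k + 3)) * vw k x := by
  have hk : (3 : ℝ) ≤ 2 * (k : ℝ) + 3 := by
    have : (0 : ℝ) ≤ k := Nat.cast_nonneg k
    linarith
  obtain ⟨i, hi⟩ : ∃ i : ℝ, i = 1 / (2 * (k : ℝ) + 3) := ⟨_, rfl⟩
  have hi2 : 1 / (2 * (2 * (k : ℝ) + 3)) = i / 2 := by rw [hi]; field_simp
  have hi0 : 0 < i := by rw [hi]; positivity
  have hi3 : i ≤ 1 / 3 := by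
    rw [hi]
    exact one_div_le_one_div_of_le (by norm_num) hk
  have hqi : (2 * (k : ℝ) + 3) * i = 1 := by rw [hi]; field_simp
  have hnn : ∀ y : Fin (k + 2) × Bool, 0 ≤ vw k y := fun y => by
    have := vw_pos y; linarith
  by_cases hx : x.1 = 0
  · have h1 : univ.filter (fun y => Pl x y) ⊆
        (univ.erase ((0 : Fin (k + 2)), true)).erase ((0 : Fin (k + 2)), false) := by
      intro y hy
      have h2 := (mem_filter.1 hy).2.2
      have h3 : y.1 ≠ 0 := fun h => h2 ⟨hx, h⟩
      rw [mem_erase, mem_erase]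
      refine ⟨fun h => h3 (by rw [h]), fun h => h3 (by rw [h]), mem_univ _⟩
    have h2 := sum_le_sum_of_subset_of_nonneg h1 (fun y _ _ => hnn y)
    refine h2.trans ?_
    have h3 := add_sum_erase (univ.erase ((0 : Fin (k + 2)), true)) (vw k)
      (a := ((0 : Fin (k + 2)), false)) (by simp)
    have h4 := add_sum_erase univ (vw k) (a := ((0 : Fin (k + 2)), true)) (mem_univ _)
    rw [sum_vw] at h4
    have h5 : vw k ((0 : Fin (k + 2)), false) = 1 - i / 2 := by simp [vw, ← hi2]
    have h6 : vw k ((0 : Fin (k + 2)), true) = 1 - i / 2 := by simp [vw, ← hi2]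
    have h7 : vw k x = 1 - i / 2 := by simp [vw, hx, ← hi2]
    rw [h5] at h3
    rw [h6] at h4
    rw [h7, ← hi]
    rw [← hi] at h4
    nlinarith
  · have h1 : univ.filter (fun y => Pl x y) ⊆ univ.erase (x.1, !x.2) := by
      intro y hy
      have h2 := (mem_filter.1 hy).2.1
      rw [mem_erase]
      refine ⟨fun h => ?_, mem_univ _⟩
      rw [h] at h2
      have := h2 rfl
      cases hh : x.2 <;> simp [hh] at this
    have h2 := sum_le_sum_of_subset_of_nonneg h1 (fun y _ _ => hnn y)
    refine h2.trans ?_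
    have h4 := add_sum_erase univ (vw k) (a := (x.1, !x.2)) (mem_univ _)
    rw [sum_vw] at h4
    have h5 : vw k (x.1, !x.2) = 1 := by simp [vw, hx]
    have h7 : vw k x = 1 := by simp [vw, hx]
    rw [h5] at h4
    rw [h7]
    linarith

/-- the elements of `M` as words -/
def Qd (g : Fr k) : Prop := ∃ (s : Bool) (L : List (Fin (k + 2) × Bool)),
  FreeGroup.mk ((0, s) :: L) = g ∧ (((0 : Fin (k + 2)), s) :: L).IsChain Pl ∧
    ∀ y ∈ (((0 : Fin (k + 2)), s) :: L).getLast?, y.1 ≠ 0

theorem Qd.mul {g g' : Fr k} (h : Qd g) (h' : Qd g') : Qd (g * g') := by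
  obtain ⟨s, L, h1, h2, h3⟩ := h
  obtain ⟨s', L', h1', h2', h3'⟩ := h'
  refine ⟨s, L ++ (0, s') :: L', ?_, ?_, ?_⟩
  · rw [← h1, ← h1', FreeGroup.mul_mk]
    rfl
  · have : (((0 : Fin (k + 2)), s) :: (L ++ (0, s') :: L')) =
      (((0 : Fin (k + 2)), s) :: L) ++ (((0 : Fin (k + 2)), s') :: L') := rfl
    rw [this, List.isChain_append]
    refine ⟨h2, h2', ?_⟩
    intro x hx y hy
    have h4 := h3 x hx
    simp only [List.head?_cons, Option.mem_def, Option.some.injEq] at hy
    subst hy
    exact ⟨fun h => absurd h h4, fun h => h4 h.1⟩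
  · have : (((0 : Fin (k + 2)), s) :: (L ++ (0, s') :: L')) =
      (((0 : Fin (k + 2)), s) :: L) ++ (((0 : Fin (k + 2)), s') :: L') := rfl
    rw [this, List.getLast?_append_of_ne_nil _ (by simp)]
    exact h3'

theorem a_eq : (a : Fr k) = FreeGroup.mk [(0, true)] := rfl
theorem b_eq : (b : Fr k) = FreeGroup.mk [(1, true)] := rfl

theorem bb_eq : (b : Fr k) ^ 2 = FreeGroup.mk [(1, true), (1, true)] := by
  rw [pow_two, b_eq, FreeGroup.mul_mk]; rfl

theorem bbi_eq : ((b : Fr k) ^ 2)⁻¹ = FreeGroup.mk [(1, false), (1, false)] := by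
  rw [bb_eq, FreeGroup.inv_mk]; rfl

theorem as_eq (s : Bool) : (as s : Fr k) = FreeGroup.mk [(0, s)] := by
  cases s
  · simp [as, a_eq, FreeGroup.inv_mk, FreeGroup.invRev]
  · rfl

theorem one_ne_zero' : (1 : Fin (k + 2)) ≠ 0 := by simp

theorem Qd_h (s : Bool) : Qd (h s : Fr k) := by
  cases s
  · refine ⟨false, [(1, false), (1, false)], ?_, ?_, ?_⟩
    · rw [h, as_eq, c, d]
      simp only [Bool.false_eq_true, if_false, mul_one]
      rw [bbi_eq, FreeGroup.mul_mk]; rfl
    · simp [Pl]
    · simp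
  · refine ⟨true, [(1, true), (1, true)], ?_, ?_, ?_⟩
    · rw [h, as_eq, c, d]
      simp only [if_true, mul_one]
      rw [bb_eq, FreeGroup.mul_mk]; rfl
    · simp [Pl]
    · simp

theorem Qd_g (s : Bool) (y : Fin (k + 2) × Bool) (s' : Bool) (hy : y.1 ≠ 0) :
    Qd (g s y s' : Fr k) := by
  have h10 := one_ne_zero' (k := k)
  by_cases hy1 : y.1 = 1
  · -- `y = b^{±1}`
    obtain ⟨i, t⟩ := y
    simp only at hy1
    subst hy1
    have hb : (e (1, true) : Fr k) = b := rfl
    have hb' : (e (1, false) : Fr k) = b⁻¹ := e_false 1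
    cases s <;> cases s' <;> cases t
    · refine ⟨false, [(1, false), (1, false), (1, false)], ?_, by simp [Pl], by simp⟩
      rw [g, as_eq, c, d]
      simp only [Bool.false_eq_true, if_false, mul_one]
      rw [bbi_eq, e, FreeGroup.mul_mk, FreeGroup.mul_mk]; rfl
    · refine ⟨false, [(1, false)], ?_, by simp [Pl], by simp⟩
      rw [g, as_eq, c, d]
      simp only [Bool.false_eq_true, if_false, mul_one]
      have : (FreeGroup.mk [(0, false), (1, false)] : Fr k) = FreeGroup.mk [(0, false)] * b⁻¹ := by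
        rw [b_eq, FreeGroup.inv_mk, FreeGroup.mul_mk]; rfl
      rw [this, hb]; group
    · refine ⟨false, [(1, false)], ?_, by simp [Pl], by simp⟩
      rw [g, as_eq, c, d]
      simp only [Bool.false_eq_true, if_false, if_true, mul_one]
      rw [e, FreeGroup.mul_mk]; rfl
    · refine ⟨false, [(1, true)], ?_, by simp [Pl], by simp⟩
      rw [g, as_eq, c, d]
      simp only [Bool.false_eq_true, if_false, if_true, mul_one]
      rw [e, FreeGroup.mul_mk]; rfl
    · refine ⟨true, [(1, false)], ?_, by simp [Pl], by simp⟩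
      rw [g, as_eq, c, d]
      simp only [Bool.false_eq_true, if_false, if_true, mul_one]
      have : (FreeGroup.mk [(0, true), (1, false)] : Fr k) = FreeGroup.mk [(0, true)] * b⁻¹ := by
        rw [b_eq, FreeGroup.inv_mk, FreeGroup.mul_mk]; rfl
      rw [this, hb']; group
    · refine ⟨true, [(1, true)], ?_, by simp [Pl], by simp⟩
      rw [g, as_eq, c, d]
      simp only [Bool.false_eq_true, if_false, if_true, mul_one]
      have : (FreeGroup.mk [(0, true), (1, true)] : Fr k) = FreeGroup.mk [(0, true)] * b := by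
        rw [b_eq, FreeGroup.mul_mk]; rfl
      rw [this, hb]; group
    · refine ⟨true, [(1, true)], ?_, by simp [Pl], by simp⟩
      rw [g, as_eq, c, d]
      simp only [if_true, mul_one]
      have : (FreeGroup.mk [(0, true), (1, true)] : Fr k) = FreeGroup.mk [(0, true)] * b := by
        rw [b_eq, FreeGroup.mul_mk]; rfl
      rw [this, hb']; group
    · refine ⟨true, [(1, true), (1, true), (1, true)], ?_, by simp [Pl], by simp⟩
      rw [g, as_eq, c, d]
      simp only [if_true, mul_one]
      rw [bb_eq, e, FreeGroup.mul_mk, FreeGroup.mul_mk]; rfl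
  · have h1 : ∀ t : Bool, Pl (1, t) y := fun t =>
      ⟨fun h => absurd h.symm hy1, fun h => h10 h.1⟩
    have h2 : ∀ t : Bool, Pl y (1, t) := fun t =>
      ⟨fun h => absurd h hy1, fun h => h10 h.2⟩
    have h3 : ∀ t : Bool, Pl (0, t) y := fun t =>
      ⟨fun h => absurd h.symm hy, fun h => hy h.2⟩
    cases s <;> cases s'
    · refine ⟨false, [y, (1, false), (1, false)], ?_, ?_, by simp⟩
      · rw [g, as_eq, c, d]
        simp only [Bool.false_eq_true, if_false, mul_one]
        rw [bbi_eq, e, FreeGroup.mul_mk, FreeGroup.mul_mk]; rfl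
      · simp only [List.isChain_cons_cons, h2, h3, List.isChain_singleton, and_true, true_and]
        simp [Pl]
    · refine ⟨false, [y], ?_, ?_, by simpa using hy⟩
      · rw [g, as_eq, c, d]
        simp only [Bool.false_eq_true, if_false, if_true, mul_one]
        rw [e, FreeGroup.mul_mk]; rfl
      · simp only [List.isChain_cons_cons, h3, List.isChain_singleton, and_true]
    · refine ⟨true, [(1, true), (1, true), y, (1, false), (1, false)], ?_, ?_, by simp⟩
      · rw [g, as_eq, c, d]
        simp only [Bool.false_eq_true, if_false, if_true]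
        rw [bbi_eq, bb_eq, e, FreeGroup.mul_mk, FreeGroup.mul_mk, FreeGroup.mul_mk]; rfl
      · simp only [List.isChain_cons_cons, h1, h2, List.isChain_singleton, and_true, true_and]
        simp [Pl]
    · refine ⟨true, [(1, true), (1, true), y], ?_, ?_, by simpa using hy⟩
      · rw [g, as_eq, c, d]
        simp only [if_true, mul_one]
        rw [bb_eq, e, FreeGroup.mul_mk, FreeGroup.mul_mk]; rfl
      · simp only [List.isChain_cons_cons, h1, List.isChain_singleton, and_true]
        simp [Pl]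

theorem Qd_of_mem {x : Fr k} (hx : x ∈ M k) : Qd x := by
  induction hx using Subsemigroup.closure_induction with
  | mem x hx =>
    rcases hx with ⟨s, rfl⟩ | ⟨p, hp, rfl⟩
    · exact Qd_h s
    · exact Qd_g _ _ _ hp
  | mul x y _ _ hx hy => exact hx.mul hy

theorem toWord_of_chain {L : List (Fin (k + 2) × Bool)} (hL : L.IsChain Rd) :
    (FreeGroup.mk L).toWord = L := by
  rw [FreeGroup.toWord_mk]
  exact FreeGroup.IsReduced.reduce_eq hL

theorem Rd_of_Pl {L : List (Fin (k + 2) × Bool)} (hL : L.IsChain Pl) : L.IsChain Rd :=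
  hL.imp (fun _ _ h => h.1)

/-- the ball -/
def Bl (r n : ℕ) : Set (FreeGroup (Fin r)) := {w | w.toWord.length ≤ n}

theorem Bl_finite (r n : ℕ) : (Bl r n).Finite := by
  apply Set.Finite.of_finite_image (f := FreeGroup.toWord)
  · apply (List.finite_length_le (Fin r × Bool) n).subset
    rintro _ ⟨w, hw, rfl⟩
    exact hw
  · exact FreeGroup.toWord_injective.injOn

theorem Bl_ge (k n : ℕ) : (2 * k + 3) ^ n ≤ (Bl (k + 2) n).ncard := by
  classical
  have h1 := card_Fc_ge (Rd (k := k)) (2 * k + 3) card_Rd n (0, true)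
  refine h1.trans ?_
  have h2 : (Fc (Rd (k := k)) n (0, true)).card =
      ((Fc (Rd (k := k)) n (0, true)).image (fun L => (FreeGroup.mk L : Fr k))).card := by
    rw [card_image_of_injOn]
    intro L hL L' hL' h
    have e1 := ((mem_Fc _ n _ L).1 hL).2
    have e2 := ((mem_Fc _ n _ L').1 hL').2
    have e3 := toWord_of_chain e1.tail
    have e4 := toWord_of_chain e2.tail
    simp only [List.tail_cons] at e3 e4
    rw [← e3, ← e4]
    exact congrArg _ h
  rw [h2, ← Set.ncard_coe_finset]
  apply Set.ncard_le_ncard _ (Bl_finite _ _)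
  intro w hw
  simp only [coe_image, Set.mem_image, mem_coe] at hw
  obtain ⟨L, hL, rfl⟩ := hw
  obtain ⟨e0, e1⟩ := (mem_Fc _ n _ L).1 hL
  have e3 := toWord_of_chain e1.tail
  simp only [List.tail_cons] at e3
  show (FreeGroup.mk L).toWord.length ≤ n
  rw [e3, e0]

theorem M_le (k n : ℕ) :
    (((M k : Set (Fr k)) ∩ Bl (k + 2) n).ncard : ℝ) ≤
      4 * ((2 * k + 3 : ℝ) - 1 / (2 * k + 3)) ^ n := by
  classical
  set lam : ℝ := (2 * k + 3 : ℝ) - 1 / (2 * k + 3) with hlam
  have hk0 : (0 : ℝ) ≤ k := Nat.cast_nonneg k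
  have hi3 : 1 / (2 * (k : ℝ) + 3) ≤ 1 / 3 := by
    apply one_div_le_one_div_of_le <;> linarith
  have hl2 : 2 ≤ lam := by rw [hlam]; linarith
  let T : Finset (Fr k) := (range n).biUnion (fun j => (univ : Finset Bool).biUnion (fun s =>
    (Fc (Pl (k := k)) j (0, s)).image (fun L => (FreeGroup.mk ((0, s) :: L) : Fr k))))
  have hsub : (M k : Set (Fr k)) ∩ Bl (k + 2) n ⊆ (T : Set (Fr k)) := by
    rintro w ⟨hw, hn⟩
    obtain ⟨s, L, h1, h2, h3⟩ := Qd_of_mem hw
    have h4 := toWord_of_chain (Rd_of_Pl h2)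
    rw [h1] at h4
    have h5 : w.toWord.length ≤ n := hn
    rw [h4] at h5
    simp only [List.length_cons] at h5
    rw [mem_coe]
    refine mem_biUnion.2 ⟨L.length, mem_range.2 (by omega), mem_biUnion.2 ⟨s, mem_univ _, ?_⟩⟩
    exact mem_image.2 ⟨L, (mem_Fc _ _ _ _).2 ⟨rfl, h2⟩, h1⟩
  have h1 : (((M k : Set (Fr k)) ∩ Bl (k + 2) n).ncard : ℝ) ≤ T.card := by
    rw [← Set.ncard_coe_finset T]
    exact_mod_cast Set.ncard_le_ncard hsub (Finset.finite_toSet T)
  refine h1.trans ?_
  have h2 : (T.card : ℝ) ≤ ∑ j ∈ range n, 4 * lam ^ j := by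
    have e1 : T.card ≤ ∑ j ∈ range n, ∑ s : Bool, (Fc (Pl (k := k)) j (0, s)).card := by
      refine card_biUnion_le.trans (sum_le_sum (fun j _ => ?_))
      exact card_biUnion_le.trans (sum_le_sum (fun s _ => card_image_le))
    refine (Nat.cast_le.2 e1).trans ?_
    push_cast
    refine sum_le_sum (fun j _ => ?_)
    have e2 : ∀ s : Bool, ((Fc (Pl (k := k)) j (0, s)).card : ℝ) ≤ 2 * lam ^ j := by
      intro s
      refine (card_Fc_le _ (vw k) lam (by linarith) vw_pos sum_Pl j (0, s)).trans ?_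
      have e3 : vw k ((0 : Fin (k + 2)), s) ≤ 1 := by
        simp only [vw, if_true]
        have : 0 ≤ 1 / (2 * (2 * (k : ℝ) + 3)) := by positivity
        linarith
      have e4 : 0 ≤ 2 * lam ^ j := by positivity
      calc 2 * lam ^ j * vw k (0, s) ≤ 2 * lam ^ j * 1 := mul_le_mul_of_nonneg_left e3 e4
        _ = _ := mul_one _
    rw [Fintype.sum_bool]
    linarith [e2 true, e2 false]
  refine h2.trans ?_
  rw [← mul_sum]
  apply mul_le_mul_of_nonneg_left _ (by norm_num)
  clear h1 h2 hsub T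
  induction n with
  | zero => simp
  | succ n ih =>
    rw [sum_range_succ, pow_succ]
    have : 0 ≤ lam ^ n := by positivity
    nlinarith

end Pool.Agent.Q322.FG
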